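import Pool.Agent.H53.GM.Targets2

/-!
# Board `gm2_modules`: the target `T_JZ`
-/

set_option autoImplicit false
set_option linter.unusedVariables false

namespace Pool.Agent.H29.GM

open Pool.Agent.H68.BP Pool.Agent.H58.SF Pool.Agent.H53.GC Pool.Agent.H53.GR Pool.Agent.H53.GM
open Classical

section

variable {X 𝓛 : Type} {N k : ℕ} {R : 𝓛 → (So N k → X) → Prop} {l₀ : 𝓛} {I : Finset (Fin k)}
  {ι : (J : Type) → [Finite J] → [Nonempty J] → (So N k → (J → X) → X) → J}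

theorem jz_pr {J : Type} (i : J) : FmI R I J (fun e w => w i) :=
  ⟨fun l p h => h.1 i, fun e t => rfl⟩

theorem jz_mnr {J J' : Type} {F : So N k → (J → X) → X} (hF : FmI R I J F) (s : J → J') :
    FmI R I J' (fun e w => F e (fun i => w (s i))) :=
  ⟨fun l p h => hF.fam l (fun i => p (s i)) ⟨fun i => h.1 (s i), fun e he i i' => h.2 e he _ _⟩,
    fun e t => hF.idem e t⟩

theorem jz_iota (hι : Iot R l₀ I ι) {J J' : Type} [Finite J] [Nonempty J] [Finite J']
    [Nonempty J'] {F : So N k → (J → X) → X} (hF : FmI R I J F) (s : J → J') :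
    ι J' (fun e w => F e (fun i => w (s i))) = s (ι J F) := by
  rw [hι.comp J J' F (fun i e w => w (s i)) hF (fun i => jz_pr (s i))]
  exact hι.pr J' (s (ι J F))

theorem jz_pat : ∀ (c : Fin 6) (d : Fin 2), ∃ r : Fin 3, pat r (0 : Fin 2) 1 c ≠ d := by
  intro c d
  fin_cases c <;> fin_cases d <;>
    first
    | exact ⟨0, by decide⟩
    | exact ⟨1, by decide⟩
    | exact ⟨2, by decide⟩

theorem jz_step (f : ℕ → Fin 2) (m : ℕ) (h : f 0 ≠ f m) : ∃ j, j < m ∧ f j ≠ f (j + 1) := by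
  by_contra hc
  push Not at hc
  have h1 : ∀ j, j ≤ m → f 0 = f j := by
    intro j
    induction j with
    | zero => intro _; rfl
    | succ j ih => intro hj; rw [ih (by omega), hc j (by omega)]
  exact h (h1 m le_rfl)

end

theorem pf_JZ (hPIN : Pool.Agent.H53.GM.T_PIN) : Pool.Agent.H53.GM.T_JZ := by
  intro X 𝓛 _ N k R l₀ rd I ι hB hι hC
  refine ⟨?_, ?_, ?_⟩
  · by_contra hc
    push Not at hc
    obtain ⟨F, hF1, hF2, hF3⟩ := hPIN X 𝓛 N k R l₀ rd I ι hB hι 1
    have h1 := hι.eqv (Fin (1 + 1)) (F 0) (F 1) (hF1 0) (hF1 1) fun e => hF3 e (hc e) 0 1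
    rw [hF2 0, hF2 1] at h1
    exact absurd h1 (by decide)
  · rintro e ⟨n, p, hp, h⟩
    by_contra hI
    have h1 := h (fun e w => w 0) (fun e w => w 1) (jz_pr 0) (jz_pr 1) (hp.2 e hI 0 1)
    rw [hι.pr, hι.pr] at h1
    exact absurd h1 (by simp)
  · obtain ⟨H, D, hH, hD, hCh⟩ := hC
    obtain ⟨r, hr⟩ := jz_pat (ι (Fin 6) H) (ι (Fin 2) D)
    obtain ⟨m, G, hG, hG0, hGm, hstep⟩ := hCh r
    have hHr : (fun (e : So N k) (w : Fin 2 → X) => H e (pat r (w 0) (w 1))) =
        fun e w => H e (fun i => w (pat r (0 : Fin 2) 1 i)) := by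
      funext e w
      refine congrArg (H e) (funext fun i => ?_)
      exact (pat_map w r 0 1 i).symm
    have h0 : ι (Fin 2) (G 0) = pat r (0 : Fin 2) 1 (ι (Fin 6) H) := by
      rw [← jz_iota hι hH (pat r (0 : Fin 2) 1), ← hHr]
      refine hι.eqv (Fin 2) (G 0) _ (hG 0) ?_ hG0
      rw [hHr]
      exact jz_mnr hH _
    have hm : ι (Fin 2) (G m) = ι (Fin 2) D := hι.eqv (Fin 2) (G m) D (hG m) hD hGm
    obtain ⟨j, hj, hne⟩ := jz_step (fun j => ι (Fin 2) (G j)) m (by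
      change ι (Fin 2) (G 0) ≠ ι (Fin 2) (G m)
      rw [h0, hm]
      exact hr)
    obtain ⟨v, hv, hvG⟩ := hstep j hj
    refine ⟨v, hv, ?_⟩
    rintro e ⟨n, p, hp, h⟩
    by_contra hve
    apply hne
    have hle : 2 ≤ n + 2 := by omega
    have h1 := h (fun e w => G j e (fun b => w (Fin.castLE hle b)))
      (fun e w => G (j + 1) e (fun b => w (Fin.castLE hle b))) (jz_mnr (hG j) _)
      (jz_mnr (hG (j + 1)) _)
      (hvG e hve (fun b => p (Fin.castLE hle b))
        ⟨fun b => hp.1 _, fun e' he' b b' => hp.2 e' he' _ _⟩)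
    rw [jz_iota hι (hG j), jz_iota hι (hG (j + 1))] at h1
    exact Fin.castLE_injective hle h1

end Pool.Agent.H29.GM
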