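import Pool.Agent.H53.GM.Targets2

/-!
# Board `gm2_modules`: the target `T_CSS`
-/

set_option autoImplicit false
set_option linter.unusedVariables false

namespace Pool.Agent.H29.GM

open Pool.Agent.H68.BP Pool.Agent.H58.SF Pool.Agent.H53.GC Pool.Agent.H53.GR Pool.Agent.H53.GM
open Classical

section

variable {τ : Sig} {N k L : ℕ}

theorem rsG_rsG (I : Finset (Fin k)) (a₀ : Ty τ N (Fin k)) {α β : Finset (Fin k × Rg L)}
    (h : α ⊆ β) (x : Kd τ N k) : rsG I a₀ α (rsG I a₀ β x) = rsG I a₀ α x := by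
  by_cases hα : α = ∅
  · unfold rsG
    rw [if_pos hα, if_pos hα]
  · have hβ : β ≠ ∅ := by
      rintro rfl
      exact hα (Finset.subset_empty.mp h)
    have hne : α.Nonempty := Finset.nonempty_iff_ne_empty.mpr hα
    have hvr : vr α ∪ I ⊆ vr β ∪ I := Finset.union_subset_union_left (Finset.image_subset_image h)
    unfold rsG
    rw [if_neg hα, if_neg hα, if_neg hβ]
    refine Prod.ext ?_ ?_
    · by_cases h1 : AS α
      · simp only [if_pos h1]
      · have h2 : ¬ AS β := fun h2 => h1 ⟨hne, fun x hx => h2.2 x (h hx)⟩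
        simp only [if_neg h1, if_neg h2]
        funext c
        exact rse_rse hvr _
    · by_cases h1 : AZ α
      · simp only [if_pos h1]
      · have h2 : ¬ AZ β := fun h2 => h1 ⟨hne, fun x hx => h2.2 x (h hx)⟩
        simp only [if_neg h1, if_neg h2]
        funext c
        exact rse_rse hvr _

theorem vr_pts (lb : Fin k → Rg L) (e : Finset (Fin k)) : vr (pts lb e) = e := by
  unfold vr pts
  rw [Finset.image_image]
  exact Finset.image_id'

theorem mem_pts {lb : Fin k → Rg L} {e : Finset (Fin k)} {x : Fin k × Rg L} :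
    x ∈ pts lb e ↔ x.1 ∈ e ∧ x.2 = lb x.1 := by
  unfold pts
  rw [Finset.mem_image]
  constructor
  · rintro ⟨v, hv, rfl⟩
    exact ⟨hv, rfl⟩
  · rintro ⟨h1, h2⟩
    exact ⟨x.1, h1, Prod.ext rfl h2.symm⟩

theorem css_pts {F : Set (Str τ (Fin N))} {I : Finset (Fin k)} {a₀ : Ty τ N (Fin k)}
    (q : CfI L F I a₀) (e : Finset (Fin k)) (i₁ : DecidableEq (CfI L F I a₀ × Fin k))
    (i₂ : DecidableEq (Fin k × Rg L)) :
    @Finset.image _ _ i₂ (cS L F I a₀).pt (@Finset.image _ _ i₁ (fun v => (q, v)) e) =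
      pts q.1.2.1 e := by
  ext x
  rw [Finset.mem_image, mem_pts]
  constructor
  · rintro ⟨y, hy, rfl⟩
    obtain ⟨v, hv, rfl⟩ := Finset.mem_image.mp hy
    exact ⟨hv, rfl⟩
  · rintro ⟨h1, h2⟩
    exact ⟨(q, x.1), Finset.mem_image.mpr ⟨x.1, h1, rfl⟩, Prod.ext rfl h2.symm⟩

theorem css_ok {F : Set (Str τ (Fin N))} {I : Finset (Fin k)} {a₀ : Ty τ N (Fin k)}
    (q : CfI L F I a₀) (e : Finset (Fin k)) (hd : Disjoint e I) (he : pts q.1.2.1 e ≠ ∅) :
    OkG F I a₀ (pts q.1.2.1 e) (kd I a₀ q.1.1 q.1.2.1 q.1.2.2 e) := by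
  obtain ⟨⟨r, lb, p⟩, hq⟩ := q
  change pts lb e ≠ ∅ at he
  change OkG F I a₀ (pts lb e) (kd I a₀ r lb p e)
  change Cfg F I a₀ r lb p at hq
  have hI : ∀ v ∈ e, v ∉ I := fun v hv hv' => Finset.disjoint_left.mp hd hv hv'
  have hsub : I ⊆ vr (pts lb e) ∪ I := Finset.subset_union_right
  have k1 : ¬ AS (pts lb e) → ∀ c, (kd I a₀ r lb p e).1 c = rse (vr (pts lb e) ∪ I) (p c) := by
    intro h c
    unfold kd rsG
    rw [if_neg he]
    simp only [if_neg h]
  have k2 : ¬ AZ (pts lb e) → ∀ d, (kd I a₀ r lb p e).2 d =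
      rse (vr (pts lb e) ∪ I) (p (ix r d)) := by
    intro h c
    unfold kd rsG
    rw [if_neg he]
    simp only [if_neg h]
  refine ⟨?_, ?_, ?_, ?_, ?_, ?_, ?_, ?_⟩
  · intro x hx y hy hxy
    have hx' := mem_pts.mp (Finset.mem_coe.mp hx)
    have hy' := mem_pts.mp (Finset.mem_coe.mp hy)
    exact Prod.ext hxy (by rw [hx'.2, hy'.2, hxy])
  · rw [vr_pts]
    exact hd
  · intro x hx y hy
    have hx' := mem_pts.mp hx
    have hy' := mem_pts.mp hy
    rw [hx'.2, hy'.2]
    exact hq.adj _ (hI _ hx'.1) _ (hI _ hy'.1)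
  · intro h c
    rw [k1 h c]
    exact ⟨⟨p c, (hq.mx c).1, rfl⟩, by rw [rse_rse hsub]; exact (hq.mx c).2⟩
  · intro h
    unfold kd rsG
    rw [if_neg he]
    simp only [if_pos h]
  · intro h d
    rw [k2 h d]
    exact ⟨⟨p (ix r d), (hq.mx _).1, rfl⟩, by rw [rse_rse hsub]; exact (hq.mx _).2⟩
  · intro h
    unfold kd rsG
    rw [if_neg he]
    simp only [if_pos h]
  · intro h1 h2 v t r' hv
    have hv' := mem_pts.mp hv
    have hr : r' = r := by
      have h3 := hq.reg v (hI v hv'.1)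
      rw [← hv'.2] at h3
      exact h3
    subst hr
    obtain ⟨P, P', hp⟩ : ∃ P P', p = pat r' P P' := by
      rcases hq.bin with h3 | h3
      · have h4 := h3 v (hI v hv'.1)
        rw [← hv'.2] at h4
        exact absurd h4 (by simp)
      · exact h3
    funext c
    rw [k1 h1 c, pat_eq_ite, k2 h2 0, k2 h2 1, hp, (pat_ix r' P P').1, (pat_ix r' P P').2,
      pat_eq_ite r' P P']
    split_ifs <;> rfl

end

theorem pf_CSS : Pool.Agent.H53.GM.T_CSS := by
  intro τ N k L F I a₀ hH hL hP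
  refine ⟨⟨?_, ?_, ?_, ?_⟩, ?_⟩
  · rintro g κ ⟨q, e, hd, hc, rfl, rfl⟩ x hx y hy hxy
    rw [Finset.mem_coe, Finset.mem_image] at hx hy
    obtain ⟨v, hv, rfl⟩ := hx
    obtain ⟨v', hv', rfl⟩ := hy
    have h1 : v = v' := congrArg Prod.fst hxy
    rw [h1]
  · rintro g κ g' ⟨q, e, hd, hc, rfl, rfl⟩ hg'
    have hg : g' = (e.filter fun v => (q, v) ∈ g').image (fun v => (q, v)) := by
      ext x
      rw [Finset.mem_image]
      constructor
      · intro hx
        obtain ⟨v, hv, rfl⟩ := Finset.mem_image.mp (hg' hx)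
        exact ⟨v, Finset.mem_filter.mpr ⟨hv, hx⟩, rfl⟩
      · rintro ⟨v, hv, rfl⟩
        exact (Finset.mem_filter.mp hv).2
    have hsub : (e.filter fun v => (q, v) ∈ g') ⊆ e := Finset.filter_subset _ _
    generalize (e.filter fun v => (q, v) ∈ g') = e' at hg hsub
    subst hg
    refine ⟨q, e', Finset.disjoint_of_subset_left hsub hd, (Finset.card_le_card hsub).trans hc, rfl,
      ?_⟩
    rw [css_pts]
    exact rsG_rsG I a₀ (Finset.image_subset_image hsub) _
  · rintro g κ κ' ⟨q, e, hd, hc, rfl, rfl⟩ ⟨q', e', hd', hc', hg, rfl⟩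
    by_cases he : e = ∅
    · subst he
      have he' : e' = ∅ := by
        rw [Finset.image_empty] at hg
        exact Finset.image_eq_empty.mp hg.symm
      subst he'
      unfold kd rsG pts
      rw [Finset.image_empty, Finset.image_empty, if_pos rfl, if_pos rfl]
    · obtain ⟨v, hv⟩ := Finset.nonempty_iff_ne_empty.mpr he
      have h1 : (q, v) ∈ e'.image (fun v => (q', v)) := by
        rw [← hg]
        exact Finset.mem_image_of_mem _ hv
      obtain ⟨v', hv', h2⟩ := Finset.mem_image.mp h1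
      have h3 : q' = q := congrArg Prod.fst h2
      subst h3
      have h4 : e = e' := Finset.image_injective (fun a b h => congrArg Prod.snd h) hg
      rw [h4]
  · rintro g κ ⟨q, e, hd, hc, rfl, rfl⟩
    rw [css_pts]
    change (pts q.1.2.1 e = ∅ ∧ _) ∨ (pts q.1.2.1 e ≠ ∅ ∧ _)
    by_cases he : pts q.1.2.1 e = ∅
    · left
      refine ⟨he, ?_⟩
      unfold kd rsG
      rw [if_pos he]
    · right
      exact ⟨he, css_ok q e hd he⟩
  · obtain ⟨P, hP1, hP2⟩ := hP
    have hC : Cfg (L := L) F I a₀ 0 (fun _ => none) (fun _ => P) := by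
      refine ⟨fun _ => ⟨hP1, hP2⟩, fun _ _ => trivial, fun _ _ _ _ => ?_, Or.inl fun _ _ => rfl⟩
      refine ⟨Nat.zero_le _, Nat.zero_le _, fun q q' h => ?_⟩
      exact absurd h (by simp)
    refine ⟨⟨(0, fun _ => none, fun _ => P), hC⟩, ∅, Finset.disjoint_empty_left _, Nat.zero_le _,
      (Finset.image_empty _).symm, ?_⟩
    unfold kd rsG pts
    rw [Finset.image_empty, if_pos rfl]

end Pool.Agent.H29.GM
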